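import Pool.Agent.MP_72b677_al.H44.Rigid

/-!
The dual module of an algebra and the dimension of the derivations with values in it.
-/

namespace Pool.Agent.MP_72b677_al.H44

open Module

/-- The `k`-dual of the algebra `A`. -/
def Du (k A : Type) [Field k] [CommRing A] [Algebra k A] : Type := A →ₗ[k] k

variable {k A V : Type} [Field k] [CommRing A] [Algebra k A]

instance : AddCommGroup (Du k A) := inferInstanceAs (AddCommGroup (A →ₗ[k] k))
instance : Module k (Du k A) := inferInstanceAs (Module k (A →ₗ[k] k))

/-- The underlying functional. -/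
def Du.val : Du k A ≃ₗ[k] (A →ₗ[k] k) := LinearEquiv.refl k _

instance : SMul A (Du k A) := ⟨fun a f => Du.val.symm (Du.val f ∘ₗ LinearMap.mulLeft k a)⟩

theorem Du.smul_apply (a b : A) (f : Du k A) : Du.val (a • f) b = Du.val f (a * b) := rfl

theorem Du.ext {f g : Du k A} (h : ∀ b, Du.val f b = Du.val g b) : f = g :=
  Du.val.injective (LinearMap.ext h)

instance : Module A (Du k A) where
  one_smul f := Du.ext fun b => by rw [Du.smul_apply, one_mul]
  mul_smul a c f := Du.ext fun b => by simp only [Du.smul_apply]; congr 1; ring
  smul_zero a := Du.ext fun b => by simp [Du.smul_apply]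
  smul_add a f g := Du.ext fun b => by simp [Du.smul_apply]
  add_smul a c f := Du.ext fun b => by simp [Du.smul_apply, add_mul]
  zero_smul f := Du.ext fun b => by simp [Du.smul_apply]

instance : IsScalarTower k A (Du k A) :=
  ⟨fun c a f => Du.ext fun b => by simp [Du.smul_apply]⟩

instance [Module.Finite k A] : Module.Finite k (Du k A) :=
  inferInstanceAs (Module.Finite k (A →ₗ[k] k))

theorem finrank_Du [Module.Finite k A] : finrank k (Du k A) = finrank k A :=
  Subspace.dual_finrank_eq

theorem finrank_der_le [CharZero k] [AddCommGroup V] [Fintype V] [Module.Finite k A]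
    (y : V → A) (hy : ∀ a b, y a * y b = y a * y (a + b)) (h2 : ∀ a : V, a + a = 0)
    (hspan : Submodule.span k (Set.range fun l : List V => (l.map y).prod) = ⊤)
    (K : Submodule k A) (hK : ∀ D : Derivation k A (Du k A), ∀ a ∈ K, D a = 0) :
    Module.Finite k (Derivation k A (Du k A)) ∧
    finrank k (Derivation k A (Du k A)) + finrank k K ≤
      Fintype.card V * Fintype.card V + finrank k A := by
  let Φ : Derivation k A (Du k A) →ₗ[k] (V × V → k) × K.dualAnnihilator :=
    { toFun := fun D => (fun pq => Du.val (D (y pq.1)) (y pq.2),
        ⟨LinearMap.applyₗ (1 : A) ∘ₗ Du.val.toLinearMap ∘ₗ D.toLinearMap,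
          (Submodule.mem_dualAnnihilator _).2 fun a ha => by simp [hK D a ha]⟩)
      map_add' := fun D E => by ext <;> simp
      map_smul' := fun c D => by ext <;> simp }
  have hΦ : Function.Injective Φ := by
    rw [injective_iff_map_eq_zero]
    intro D hD
    have h1 : ∀ p q, Du.val (D (y p)) (y q) = 0 := fun p q => congrFun (congrArg Prod.fst hD) (p, q)
    have h3 : ∀ a, Du.val (D a) 1 = 0 := fun a =>
      LinearMap.congr_fun (congrArg (fun t => t.2.1) hD) a
    have h4 : ∀ p, D (y p) = 0 := fun p => by
      apply Du.val.injective
      rw [map_zero]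
      refine LinearMap.ext_on_range hspan fun l => ?_
      rcases l with _ | ⟨a, _ | ⟨b, l⟩⟩
      · simpa using h3 _
      · simpa using h1 p a
      · have h5 := h3 (y p * ((a :: b :: l).map y).prod)
        rw [deriv_prod y hy h2, map_nsmul, LinearMap.smul_apply, Du.smul_apply, mul_one] at h5
        exact nsmul_cancel (k := k) (by omega) h5
    have h6 : D.toLinearMap = 0 := by
      refine LinearMap.ext_on_range hspan fun l => ?_
      induction l with
      | nil => simp
      | cons q l ih =>
        have ih' : D (l.map y).prod = 0 := ih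
        change D _ = 0
        rw [List.map_cons, List.prod_cons, Derivation.leibniz, ih', h4, smul_zero, smul_zero,
          add_zero]
    ext a
    exact LinearMap.congr_fun h6 a
  have : Module.Free k K.dualAnnihilator := Module.Free.of_divisionRing k K.dualAnnihilator
  have : Module.Finite k K.dualAnnihilator := inferInstance
  have : IsNoetherian k ((V × V → k) × K.dualAnnihilator) :=
    isNoetherian_of_isNoetherianRing_of_finite k ((V × V → k) × K.dualAnnihilator)
  refine ⟨Module.Finite.of_injective Φ hΦ, ?_⟩
  have h7 := LinearMap.finrank_le_finrank_of_injective hΦ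
  rw [finrank_prod, finrank_fintype_fun_eq_card, Fintype.card_prod] at h7
  have h8 := Subspace.finrank_add_finrank_dualAnnihilator_eq K
  omega

end Pool.Agent.MP_72b677_al.H44
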