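import Mathlib

/-!
Rigidity of derivations on algebras generated by elements `y v` (`v` in an elementary abelian
2-group) with `y a * y b = y a * y (a + b)`.
-/

namespace Pool.Agent.MP_72b677_al.H44

variable {k A M V : Type*} [Field k] [CommRing A] [Algebra k A] [AddCommGroup M] [Module A M]
  [Module k M] [IsScalarTower k A M] [AddCommGroup V]

omit [IsScalarTower k A M] in
theorem key (y : V → A) (hy : ∀ a b, y a * y b = y a * y (a + b)) (D : Derivation k A M)
    (w : V) {p q r : V} (h : p + q = r) :
    (y w * y p) • D (y q) + (y w * y q) • D (y p) =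
      (y w * y p) • D (y r) + (y w * y r) • D (y p) := by
  have h1 := congrArg (fun t => y w • D t) (hy p q)
  simp only [Derivation.leibniz, smul_add, ← mul_smul, h] at h1
  exact h1

omit [IsScalarTower k A M] in
theorem swap_two (y : V → A) (hy : ∀ a b, y a * y b = y a * y (a + b)) (h2 : ∀ a : V, a + a = 0)
    (D : Derivation k A M) (a b c : V) :
    (2 : ℕ) • ((y a * y b) • D (y c)) = (2 : ℕ) • ((y a * y c) • D (y b)) := by
  have R : ∀ {p q r : V}, p + q = r → y p * y q = y p * y r := fun h => h ▸ hy _ _
  have s12 : a + b = (a + b) := by abel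
  have s14 : a + c = (a + c) := by abel
  have s16 : a + (b + c) = (a + b + c) := by abel
  have s21 : b + a = (a + b) := by abel
  have s24 : b + c = (b + c) := by abel
  have s25 : b + (a + c) = (a + b + c) := by abel
  have s34 : (a + b) + c = (a + b + c) := by abel
  have s35 : (a + b) + (a + c) = (b + c) := by linear_combination (norm := abel) h2 a
  have s41 : c + a = (a + c) := by abel
  have s42 : c + b = (b + c) := by abel
  have s43 : c + (a + b) = (a + b + c) := by abel
  have s52 : (a + c) + b = (a + b + c) := by abel
  have s53 : (a + c) + (a + b) = (b + c) := by linear_combination (norm := abel) h2 a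
  have s61 : (b + c) + a = (a + b + c) := by abel
  have s62 : (b + c) + b = c := by linear_combination (norm := abel) h2 b
  have s63 : (b + c) + (a + b) = (a + c) := by linear_combination (norm := abel) h2 b
  have e0 := key y hy D (a + b + c) s21
  have e1 := key y hy D (a + b) s24
  have e2 := key y hy D (a + b + c) s63
  have e3 := key y hy D c s52
  have e4 := key y hy D c s53
  have e5 := key y hy D (a + c) s21
  have e6 := key y hy D a s63
  have e7 := key y hy D a s43
  have e8 := key y hy D (a + b + c) s62
  have n13 : y a * y (a + b) = y a * y b := (R s12).symm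
  have n15 : y a * y (a + c) = y a * y c := (R s14).symm
  have n17 : y a * y (a + b + c) = y a * y (b + c) := (R s16).symm
  have n32 : y (a + b) * y b = y a * y b := (mul_comm _ _).trans ((R s21).symm.trans (mul_comm _ _))
  have n36 : y (a + b) * y (b + c) = y (a + b) * y (a + c) := (R s35).symm
  have n42 : y c * y b = y b * y c := mul_comm _ _
  have n43 : y c * y (a + b) = y (a + b) * y c := mul_comm _ _
  have n45 : y c * y (a + c) = y a * y c := (R s41).symm.trans (mul_comm _ _)
  have n46 : y c * y (b + c) = y b * y c := (R s42).symm.trans (mul_comm _ _)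
  have n47 : y c * y (a + b + c) = y (a + b) * y c := (R s43).symm.trans (mul_comm _ _)
  have n51 : y (a + c) * y a = y a * y c := (mul_comm _ _).trans (R s14).symm
  have n52 : y (a + c) * y b = y b * y (a + c) := mul_comm _ _
  have n53 : y (a + c) * y (a + b) = y (a + b) * y (a + c) := mul_comm _ _
  have n71 : y (a + b + c) * y a = y a * y (b + c) := (mul_comm _ _).trans (R s16).symm
  have n72 : y (a + b + c) * y b = y b * y (a + c) := (mul_comm _ _).trans (R s25).symm
  have n73 : y (a + b + c) * y (a + b) = y (a + b) * y c := (mul_comm _ _).trans (R s34).symm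
  have n74 : y (a + b + c) * y c = y (a + b) * y c := (mul_comm _ _).trans ((R s43).symm.trans (mul_comm _ _))
  have n75 : y (a + b + c) * y (a + c) = y b * y (a + c) := (mul_comm _ _).trans ((R s52).symm.trans (mul_comm _ _))
  have n76 : y (a + b + c) * y (b + c) = y a * y (b + c) := (mul_comm _ _).trans ((R s61).symm.trans (mul_comm _ _))
  simp only [n13, n15, n17, n32, n36, n42, n43, n45, n46, n47, n51, n52, n53, n71, n72, n73, n74, n75, n76] at e0 e1 e2 e3 e4 e5 e6 e7 e8
  linear_combination (norm := module) e0 + e1 - e2 - e3 - e4 - e5 + e6 + e7 - e8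

omit [IsScalarTower k A M] in
theorem nsmul_cancel [CharZero k] {n : ℕ} (hn : n ≠ 0) {x : M} (h : n • x = 0) : x = 0 := by
  rw [← Nat.cast_smul_eq_nsmul k] at h
  exact (smul_eq_zero.1 h).resolve_left (Nat.cast_ne_zero.2 hn)

omit [IsScalarTower k A M] in
theorem swap [CharZero k] (y : V → A) (hy : ∀ a b, y a * y b = y a * y (a + b))
    (h2 : ∀ a : V, a + a = 0) (D : Derivation k A M) (a b c : V) :
    (y a * y b) • D (y c) = (y a * y c) • D (y b) := by
  rw [← sub_eq_zero]
  refine nsmul_cancel (k := k) two_ne_zero ?_
  rw [smul_sub, swap_two y hy h2 D a b c, sub_self]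

omit [IsScalarTower k A M] in
theorem smul_deriv_prod [CharZero k] (y : V → A) (hy : ∀ a b, y a * y b = y a * y (a + b))
    (h2 : ∀ a : V, a + a = 0) (D : Derivation k A M) (a p : V) (l : List V) :
    (y a * y p) • D (l.map y).prod = l.length • ((y a * (l.map y).prod) • D (y p)) := by
  induction l with
  | nil => simp
  | cons q l ih =>
    have h1 := congrArg (fun t => y q • t) ih
    have h3 := congrArg (fun t => (l.map y).prod • t) (swap y hy h2 D a p q)
    simp only [List.map_cons, List.prod_cons, Derivation.leibniz, List.length_cons] at *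
    linear_combination (norm := module) h1 + h3

omit [IsScalarTower k A M] in
/-- In degree at least three every product `y ... y • D y` is a multiple of `D` of the product. -/
theorem deriv_prod [CharZero k] (y : V → A) (hy : ∀ a b, y a * y b = y a * y (a + b))
    (h2 : ∀ a : V, a + a = 0) (D : Derivation k A M) (p a b : V) (l : List V) :
    D (y p * ((a :: b :: l).map y).prod) =
      (l.length + 3) • (((a :: b :: l).map y).prod • D (y p)) := by
  have h1 := smul_deriv_prod y hy h2 D a p (b :: l)
  have h3 := congrArg (fun t => (l.map y).prod • t) (swap y hy h2 D b p a)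
  simp only [List.map_cons, List.prod_cons, List.length_cons] at *
  rw [Derivation.leibniz, Derivation.leibniz (a := y a)]
  linear_combination (norm := module) h1 + h3

omit [IsScalarTower k A M] in
/-- If `y α = y β * y γ`, every derivation kills the multiples of `y α` by products of length
at least two. -/
theorem deriv_eq_zero [CharZero k] (y : V → A) (hy : ∀ a b, y a * y b = y a * y (a + b))
    (h2 : ∀ a : V, a + a = 0) (D : Derivation k A M) {α β γ : V} (h : y α = y β * y γ)
    (a b : V) (l : List V) : D (y α * ((a :: b :: l).map y).prod) = 0 := by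
  have h1 := deriv_prod y hy h2 D α a b l
  have h3 := deriv_prod y hy h2 D β γ a (b :: l)
  have h4 := congrArg (fun t => (y b * (l.map y).prod) • t) (swap y hy h2 D a β γ)
  have h5 := congrArg (fun t => (y a * (y b * (l.map y).prod)) • D t) h
  simp only [List.map_cons, List.prod_cons, List.length_cons] at *
  rw [Derivation.leibniz] at h5
  rw [← mul_assoc (y β), ← h] at h3
  have h6 : (l.length + 2) • ((y γ * (y a * (y b * (l.map y).prod))) • D (y β)) = 0 := by
    linear_combination (norm := module) h3 - h1 - (l.length + 3) • h5 - (l.length + 3) • h4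
  rw [h3, nsmul_cancel (k := k) (by omega) h6, smul_zero]

end Pool.Agent.MP_72b677_al.H44
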